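import Pool.Agent.K3h2.HA.Loc

set_option autoImplicit false

/-!
Hyperelliptic curves with rational Weierstrass points: the mean of the upper bounds for the minimal
discriminant over the pairs of roots, in terms of the cross ratios.
-/

namespace Pool.Agent.K3h2.HA

open Polynomial Finset NumberField IsDedekindDomain WithZero Pool.Agent.W318 Pool.Agent.TH905.HS
  Pool.Agent.H691R3

/-- the local height of the three points `0, 1, ∞` with respect to `x` -/
noncomputable def loc {K : Type} [Field K] (f : AbsoluteValue K ℝ) (x : K) : ℝ :=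
  3 * Real.log (max (f x) 1) - Real.log (f x) - Real.log (f (1 - x))

section comb

/-- the mean over the pairs -/
theorem mean {m : ℕ} (hm : 2 ≤ m) (X : ℝ) (L : Fin m → Fin m → ℝ) (hL : ∀ i j, L i j = L j i)
    (hL0 : ∀ i, L i i = 0) (M D : Fin m → Fin m → Fin m → ℝ)
    (hM1 : ∀ p q, M p q p = L p q) (hM2 : ∀ p q, M p q q = L p q)
    (hD : ∀ p q i, p ≠ q → i ≠ p → i ≠ q →
      D p q i = 3 * M p q i - L p q - L q i - L p i)
    (hX : ∀ p q, p ≠ q → X ≤ 2 * m * ∑ i, M p q i - m * (m + 1) * L p q -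
      ∑ i, ∑ j ∈ univ.erase i, L i j) :
    X ≤ 2 / (3 * (m - 1)) * ∑ p, ∑ q ∈ univ.erase p, ∑ i ∈ (univ.erase p).erase q, D p q i := by
  classical
  have hmR : (2 : ℝ) ≤ m := by exact_mod_cast hm
  set W : ℝ := ∑ i, ∑ j ∈ univ.erase i, L i j with hW
  set R : Fin m → ℝ := fun q => ∑ i, L q i with hR
  have hRW : ∑ q, R q = W := by
    rw [hW]
    refine Finset.sum_congr rfl fun q _ => ?_
    rw [hR]
    change ∑ i, L q i = _
    rw [← Finset.add_sum_erase univ _ (mem_univ q), hL0, zero_add]
  -- the sum over the third index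
  have h1 : ∀ p, ∀ q ∈ univ.erase p, ∑ i, M p q i = 2 * L p q +
      1 / 3 * (∑ i ∈ (univ.erase p).erase q, D p q i + (m - 4) * L p q + R p + R q) := by
    intro p q hq
    have hqp : q ≠ p := Finset.ne_of_mem_erase hq
    rw [← Finset.add_sum_erase univ _ (mem_univ p), ← Finset.add_sum_erase (univ.erase p) _ hq,
      hM1, hM2]
    have e1 : ∑ i ∈ (univ.erase p).erase q, D p q i = ∑ i ∈ (univ.erase p).erase q,
        (3 * M p q i - L p q - L q i - L p i) := by
      refine Finset.sum_congr rfl fun i hi => ?_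
      have hi1 := Finset.ne_of_mem_erase hi
      have hi2 := Finset.ne_of_mem_erase (Finset.mem_of_mem_erase hi)
      exact hD p q i hqp.symm hi2 hi1
    have e2 : R p = L p q + ∑ i ∈ (univ.erase p).erase q, L p i := by
      rw [hR]
      change ∑ i, L p i = _
      rw [← Finset.add_sum_erase univ _ (mem_univ p), ← Finset.add_sum_erase (univ.erase p) _ hq,
        hL0, zero_add]
    have e3 : R q = L p q + ∑ i ∈ (univ.erase p).erase q, L q i := by
      rw [hR]
      change ∑ i, L q i = _
      rw [← Finset.add_sum_erase univ _ (mem_univ p), ← Finset.add_sum_erase (univ.erase p) _ hq,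
        hL0, zero_add, hL q p]
    have e4 : ∑ _i ∈ (univ.erase p).erase q, L p q = (m - 2) * L p q := by
      rw [Finset.sum_const, Finset.card_erase_of_mem hq, Finset.card_erase_of_mem (mem_univ _),
        Finset.card_univ, Fintype.card_fin, nsmul_eq_mul]
      have : m - 1 - 1 = m - 2 := by omega
      rw [this, Nat.cast_sub hm]
      norm_num
    rw [e1]
    simp only [Finset.sum_sub_distrib]
    rw [e4, ← Finset.mul_sum, e2, e3]
    ring
  -- summation over the pairs
  have hcard : ∀ p : Fin m, ((univ.erase p).card : ℝ) = m - 1 := by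
    intro p
    rw [Finset.card_erase_of_mem (mem_univ _), Finset.card_univ, Fintype.card_fin,
      Nat.cast_sub (by omega)]
    norm_num
  have h2 : ∑ p : Fin m, ∑ _q ∈ univ.erase p, X = m * (m - 1) * X := by
    simp only [Finset.sum_const, nsmul_eq_mul]
    rw [Finset.sum_congr rfl fun p _ => by rw [hcard p]]
    rw [Finset.sum_const, Finset.card_univ, Fintype.card_fin, nsmul_eq_mul]
    ring
  have h3 : ∑ p : Fin m, ∑ _q ∈ univ.erase p, W = m * (m - 1) * W := by
    simp only [Finset.sum_const, nsmul_eq_mul]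
    rw [Finset.sum_congr rfl fun p _ => by rw [hcard p]]
    rw [Finset.sum_const, Finset.card_univ, Fintype.card_fin, nsmul_eq_mul]
    ring
  have h4 : ∑ p : Fin m, ∑ _q ∈ univ.erase p, R p = (m - 1) * W := by
    simp only [Finset.sum_const, nsmul_eq_mul]
    rw [Finset.sum_congr rfl fun p _ => by rw [hcard p], ← Finset.mul_sum, hRW]
  have h5 : ∑ p : Fin m, ∑ q ∈ univ.erase p, R q = (m - 1) * W := by
    have e1 : ∀ p : Fin m, ∑ q ∈ univ.erase p, R q = W - R p := by
      intro p
      rw [← hRW, ← Finset.add_sum_erase univ R (mem_univ p)]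
      ring
    rw [Finset.sum_congr rfl fun p _ => e1 p, Finset.sum_sub_distrib, hRW, Finset.sum_const,
      Finset.card_univ, Fintype.card_fin, nsmul_eq_mul]
    ring
  have h6 : ∑ p : Fin m, ∑ _q ∈ univ.erase p, X ≤ ∑ p : Fin m, ∑ q ∈ univ.erase p,
      (2 * m * (2 * L p q + 1 / 3 * (∑ i ∈ (univ.erase p).erase q, D p q i + (m - 4) * L p q +
        R p + R q)) - m * (m + 1) * L p q - W) := by
    refine Finset.sum_le_sum fun p _ => Finset.sum_le_sum fun q hq => ?_
    rw [← h1 p q hq]
    exact hX p q (Finset.ne_of_mem_erase hq).symm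
  have h7 : ∑ p : Fin m, ∑ q ∈ univ.erase p,
      (2 * m * (2 * L p q + 1 / 3 * (∑ i ∈ (univ.erase p).erase q, D p q i + (m - 4) * L p q +
        R p + R q)) - m * (m + 1) * L p q - W) =
      2 * m * (2 * W + 1 / 3 * (∑ p, ∑ q ∈ univ.erase p, ∑ i ∈ (univ.erase p).erase q, D p q i +
        (m - 4) * W + (m - 1) * W + (m - 1) * W)) - m * (m + 1) * W - m * (m - 1) * W := by
    rw [← h3]
    simp only [Finset.sum_sub_distrib, ← Finset.mul_sum, Finset.sum_add_distrib]
    rw [h4, h5, ← hW]
  rw [h2, h7] at h6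
  have h8 : m * (m - 1) * X ≤ 2 * m / 3 * ∑ p, ∑ q ∈ univ.erase p,
      ∑ i ∈ (univ.erase p).erase q, D p q i := by
    refine h6.trans (le_of_eq ?_)
    ring
  have h9 : (0 : ℝ) < m * (m - 1) := by nlinarith
  have h10 : m * (m - 1) * (2 / (3 * (m - 1)) * ∑ p, ∑ q ∈ univ.erase p,
      ∑ i ∈ (univ.erase p).erase q, D p q i) = 2 * m / 3 * ∑ p, ∑ q ∈ univ.erase p,
      ∑ i ∈ (univ.erase p).erase q, D p q i := by
    have : (m : ℝ) - 1 ≠ 0 := by linarith
    field_simp
  rw [← h10] at h8
  exact le_of_mul_le_mul_left h8 h9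

end comb

section loc

variable {K : Type} [Field K] [NumberField K]

/-- the cross ratio of `∞` and three of the roots -/
def ratio {m : ℕ} (e : Fin m → K) (i j k : Fin m) : K := (e i - e j) / (e i - e k)

lemma ratio_ne_zero {m : ℕ} {e : Fin m → K} (he : Function.Injective e) {i j k : Fin m}
    (hij : i ≠ j) (hik : i ≠ k) : ratio e i j k ≠ 0 :=
  div_ne_zero (sub_ne_zero.mpr (he.ne hij)) (sub_ne_zero.mpr (he.ne hik))

lemma one_sub_ratio {m : ℕ} {e : Fin m → K} (he : Function.Injective e) {i j k : Fin m}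
    (hik : i ≠ k) : 1 - ratio e i j k = (e j - e k) / (e i - e k) := by
  have := sub_ne_zero.mpr (he.ne hik)
  unfold ratio
  rw [eq_div_iff this, sub_mul, one_mul, div_mul_cancel₀ _ this]
  ring

lemma ratio_ne_one {m : ℕ} {e : Fin m → K} (he : Function.Injective e) {i j k : Fin m}
    (hik : i ≠ k) (hjk : j ≠ k) : ratio e i j k ≠ 1 := by
  intro h
  have h1 := one_sub_ratio (j := j) he hik
  rw [h, sub_self] at h1
  exact div_ne_zero (sub_ne_zero.mpr (he.ne hjk)) (sub_ne_zero.mpr (he.ne hik)) h1.symm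

/-- the mean bound at a place -/
theorem minExp_mean {g m : ℕ} (hg : 1 ≤ g) (hm : m = 2 * g + 1) {d : K} (hd : d ≠ 0)
    {e : Fin m → K} (he : Function.Injective e) (v : HeightOneSpectrum (𝓞 K)) {t : ℕ}
    (ht : v.valuation K (2 : K) = exp (-(t : ℤ))) :
    (minExp g (pol d e) v : ℝ) * Real.log (Nv v) ≤ (4 * g * t + 2 * m) * Real.log (Nv v) +
      2 / (3 * (m - 1)) * ∑ p, ∑ q ∈ univ.erase p, ∑ i ∈ (univ.erase p).erase q,
        loc (fv v) (ratio e p q i) := by
  classical
  have h := mean (m := m) (by omega)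
    ((minExp g (pol d e) v : ℝ) * Real.log (Nv v) - (4 * g * t + 2 * m) * Real.log (Nv v))
    (fun i j => Real.log (fv v (e i - e j))) (fun i j => by rw [(fv v).map_sub])
    (fun i => by rw [sub_self, map_zero, Real.log_zero])
    (fun p q i => Real.log (max (fv v (e p - e q)) (fv v (e p - e i))))
    (fun p q i => loc (fv v) (ratio e p q i)) (fun p q => by
      rw [sub_self, map_zero, max_eq_left ((fv v).nonneg _)])
    (fun p q => by rw [max_self]) ?_ ?_
  · linarith
  · intro p q i hpq hip hiq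
    have h0 := (fv v).pos (sub_ne_zero.mpr (he.ne hip.symm))
    have h1 := (fv v).pos (sub_ne_zero.mpr (he.ne hpq))
    have h2 := (fv v).pos (sub_ne_zero.mpr (he.ne hiq.symm))
    unfold loc
    rw [one_sub_ratio he hip.symm]
    unfold ratio
    rw [map_div₀, map_div₀, Real.log_div h1.ne' h0.ne', Real.log_div h2.ne' h0.ne']
    have h3 : max (fv v (e p - e q) / fv v (e p - e i)) 1 =
        max (fv v (e p - e q)) (fv v (e p - e i)) / fv v (e p - e i) := by
      rw [← max_div_div_right h0.le, div_self h0.ne']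
    rw [h3, Real.log_div (lt_of_lt_of_le h1 (le_max_left _ _)).ne' h0.ne']
    ring
  · intro p q hpq
    have := minExp_pair hg hm hd he v ht hpq
    linarith

lemma loc_nonneg (v : HeightOneSpectrum (𝓞 K)) {x : K} (hx : x ≠ 0) (hx1 : x ≠ 1) :
    0 ≤ loc (fv v) x := by
  have h0 := (fv v).pos hx
  have h1 := (fv v).pos (sub_ne_zero.mpr (Ne.symm hx1))
  have h2 : fv v (1 - x) ≤ max (fv v x) 1 := by
    have := fv_sub_le v 1 x
    rw [map_one, max_comm] at this
    exact this
  have e1 : Real.log (fv v x) ≤ Real.log (max (fv v x) 1) := Real.log_le_log h0 (le_max_left _ _)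
  have e2 : Real.log (fv v (1 - x)) ≤ Real.log (max (fv v x) 1) := Real.log_le_log h1 h2
  have e3 : 0 ≤ Real.log (max (fv v x) 1) := Real.log_nonneg (le_max_right _ _)
  unfold loc
  linarith

lemma loc_arch (w : InfinitePlace K) {x : K} (hx : x ≠ 0) (hx1 : x ≠ 1) :
    -Real.log 2 ≤ loc w.1 x := by
  have h0 := w.1.pos hx
  have h1 := w.1.pos (sub_ne_zero.mpr (Ne.symm hx1))
  have hpos : 0 < max (w.1 x) 1 := lt_of_lt_of_le one_pos (le_max_right _ _)
  have h2 : w.1 (1 - x) ≤ 2 * max (w.1 x) 1 := by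
    have := w.1.add_le 1 (-x)
    rw [← sub_eq_add_neg, w.1.map_neg, map_one] at this
    have h3 := le_max_left (w.1 x) 1
    have h4 := le_max_right (w.1 x) 1
    linarith
  have e1 : Real.log (w.1 x) ≤ Real.log (max (w.1 x) 1) := Real.log_le_log h0 (le_max_left _ _)
  have e2 : Real.log (w.1 (1 - x)) ≤ Real.log 2 + Real.log (max (w.1 x) 1) := by
    rw [← Real.log_mul two_ne_zero hpos.ne']
    exact Real.log_le_log h1 h2
  have e3 : 0 ≤ Real.log (max (w.1 x) 1) := Real.log_nonneg (le_max_right _ _)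
  unfold loc
  linarith

/-- the sum of the local heights at finitely many primes -/
theorem sum_loc_le {x : K} (hx : x ≠ 0) (hx1 : x ≠ 1) (R : Finset (HeightOneSpectrum (𝓞 K))) :
    ∑ v ∈ R, loc (fv v) x ≤ 3 * Height.logHeight₁ x +
      (∑ w : InfinitePlace K, (w.mult : ℝ)) * Real.log 2 := by
  classical
  have hx1' : 1 - x ≠ 0 := sub_ne_zero.mpr (Ne.symm hx1)
  set T : Finset (HeightOneSpectrum (𝓞 K)) := (fv_support_finite hx).toFinset ∪
    (fv_support_finite hx1').toFinset ∪ R with hT
  have hT1 : ∀ v ∉ T, fv v x = 1 ∧ fv v (1 - x) = 1 := by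
    intro v hv
    rw [hT, mem_union, mem_union, not_or, not_or, Set.Finite.mem_toFinset,
      Set.Finite.mem_toFinset] at hv
    constructor
    · by_contra hne
      exact hv.1.1 hne
    · by_contra hne
      exact hv.1.2 hne
  have hsup : ∀ f : AbsoluteValue K ℝ, (⨆ i, f ((![x, 1] : Fin 2 → K) i)) = max (f x) 1 := by
    intro f
    apply le_antisymm
    · refine ciSup_le fun i => ?_
      fin_cases i
      · exact le_max_left _ _
      · change f 1 ≤ _
        rw [map_one]
        exact le_max_right _ _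
    · refine max_le (le_ciSup (f := fun i => f ((![x, 1] : Fin 2 → K) i))
        (Finite.bddAbove_range _) 0) ?_
      have := le_ciSup (f := fun i => f ((![x, 1] : Fin 2 → K) i)) (Finite.bddAbove_range _) 1
      change f 1 ≤ _ at this
      rwa [map_one] at this
  have h1 : Height.logHeight₁ x = ∑ w : InfinitePlace K, (w.mult : ℝ) * Real.log (max (w.1 x) 1) +
      ∑ v ∈ T, Real.log (max (fv v x) 1) := by
    rw [Height.logHeight₁_eq_logHeight, Pool.Agent.TH905.VF.logHeight_eq_sum ![x, 1] (fun i => by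
      fin_cases i
      · exact hx
      · exact one_ne_zero) two_pos T (fun v hv i => by
      fin_cases i
      · exact (hT1 v hv).1
      · exact map_one _)]
    simp only [hsup]
  have h2 := Pool.Agent.TH905.VF.product_formula hx T fun v hv => (hT1 v hv).1
  have h3 := Pool.Agent.TH905.VF.product_formula hx1' T fun v hv => (hT1 v hv).2
  have h4 : ∑ w : InfinitePlace K, (w.mult : ℝ) * loc w.1 x + ∑ v ∈ T, loc (fv v) x =
      3 * Height.logHeight₁ x := by
    have e1 : ∑ w : InfinitePlace K, (w.mult : ℝ) * loc w.1 x =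
        3 * ∑ w : InfinitePlace K, (w.mult : ℝ) * Real.log (max (w.1 x) 1) -
        ∑ w : InfinitePlace K, (w.mult : ℝ) * Real.log (w.1 x) -
        ∑ w : InfinitePlace K, (w.mult : ℝ) * Real.log (w.1 (1 - x)) := by
      rw [Finset.mul_sum, ← Finset.sum_sub_distrib, ← Finset.sum_sub_distrib]
      refine Finset.sum_congr rfl fun w _ => ?_
      unfold loc
      ring
    have e2 : ∑ v ∈ T, loc (fv v) x = 3 * ∑ v ∈ T, Real.log (max (fv v x) 1) -
        ∑ v ∈ T, Real.log (fv v x) - ∑ v ∈ T, Real.log (fv v (1 - x)) := by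
      rw [Finset.mul_sum, ← Finset.sum_sub_distrib, ← Finset.sum_sub_distrib]
      rfl
    rw [e1, e2, h1]
    linear_combination -h2 - h3
  have h5 : -((∑ w : InfinitePlace K, (w.mult : ℝ)) * Real.log 2) ≤
      ∑ w : InfinitePlace K, (w.mult : ℝ) * loc w.1 x := by
    rw [Finset.sum_mul, ← Finset.sum_neg_distrib]
    refine Finset.sum_le_sum fun w _ => ?_
    have := mul_le_mul_of_nonneg_left (loc_arch w hx hx1)
      (Nat.cast_nonneg w.mult : (0 : ℝ) ≤ w.mult)
    linarith
  have h6 : ∑ v ∈ R, loc (fv v) x ≤ ∑ v ∈ T, loc (fv v) x :=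
    Finset.sum_le_sum_of_subset_of_nonneg Finset.subset_union_right
      fun v _ _ => loc_nonneg v hx hx1
  linarith

end loc

end Pool.Agent.K3h2.HA
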