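import Pool.Agent.K3h2.HA.Avg

set_option autoImplicit false

/-!
Hyperelliptic curves with rational Weierstrass points: the minimal discriminant is bounded by the
conductor and the largest height of a cross ratio.
-/

namespace Pool.Agent.K3h2.HA

open Polynomial Finset NumberField IsDedekindDomain WithZero Pool.Agent.W318 Pool.Agent.TH905.HS
  Pool.Agent.H691R3

variable {K : Type} [Field K] [NumberField K] {m g : ℕ}

lemma log_badNorm' (hm : m = 2 * g + 1) {d : K} (hd : d ≠ 0) {e : Fin m → K}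
    (he : Function.Injective e) :
    Real.log (badNorm g (pol d e)) =
      ∑ v ∈ (finite_bad (pol_isHyp hm hd he)).toFinset, Real.log (Nv v) := by
  rw [badNorm_eq (finite_bad (pol_isHyp hm hd he)).toFinset fun v => by simp, Nat.cast_prod,
    Real.log_prod]
  · rfl
  · intro v _
    exact (lt_of_lt_of_le zero_lt_two (two_le_Nv v)).ne'

lemma log_discNorm' (hm : m = 2 * g + 1) {d : K} (hd : d ≠ 0) {e : Fin m → K}
    (he : Function.Injective e) :
    Real.log (discNorm g (pol d e)) =
      ∑ v ∈ (finite_bad (pol_isHyp hm hd he)).toFinset,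
        (minExp g (pol d e) v : ℝ) * Real.log (Nv v) := by
  rw [discNorm_eq (finite_bad (pol_isHyp hm hd he)).toFinset fun v hv => by simpa using hv,
    Nat.cast_prod, Real.log_prod]
  · refine Finset.sum_congr rfl fun v _ => ?_
    rw [Nat.cast_pow, Real.log_pow]
    rfl
  · intro v _
    rw [Nat.cast_pow]
    exact pow_ne_zero _ (lt_of_lt_of_le zero_lt_two (two_le_Nv v)).ne'

lemma discNorm_pos' (hm : m = 2 * g + 1) {d : K} (hd : d ≠ 0) {e : Fin m → K}
    (he : Function.Injective e) : 0 < discNorm g (pol d e) := by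
  rw [discNorm_eq (finite_bad (pol_isHyp hm hd he)).toFinset fun v hv => by simpa using hv]
  refine Finset.prod_pos fun v _ => pow_pos ?_ _
  have := two_le_Nv v
  unfold Nv at this
  have h : (2 : ℕ) ≤ Ideal.absNorm v.asIdeal := by exact_mod_cast this
  omega

lemma badNorm_pos' (hm : m = 2 * g + 1) {d : K} (hd : d ≠ 0) {e : Fin m → K}
    (he : Function.Injective e) : 0 < badNorm g (pol d e) := by
  rw [badNorm_eq (finite_bad (pol_isHyp hm hd he)).toFinset fun v => by simp]
  refine Finset.prod_pos fun v _ => ?_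
  have := two_le_Nv v
  unfold Nv at this
  have h : (2 : ℕ) ≤ Ideal.absNorm v.asIdeal := by exact_mod_cast this
  omega

/-- at the odd primes of good reduction the cross ratios are units, different from `1` -/
lemma good_ratio (hg : 2 ≤ g) (hm : m = 2 * g + 1) {d : K} (hd : d ≠ 0) {e : Fin m → K}
    (he : Function.Injective e) (v : HeightOneSpectrum (𝓞 K)) (h2 : v.valuation K (2 : K) = 1)
    (h0 : minExp g (pol d e) v = 0) {i j k : Fin m} (hij : i ≠ j) (hik : i ≠ k) (hjk : j ≠ k) :
    fv v (ratio e i j k) = 1 ∧ fv v (1 - ratio e i j k) = 1 := by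
  have h := equal_of_good hg hm hd he v h2 h0
  have key : ∀ a b c d : Fin m, a ≠ b → c ≠ d → fv v ((e a - e b) / (e c - e d)) = 1 := by
    intro a b c d hab hcd
    have h1 := h a b c d hab hcd
    have h3 : v.valuation K ((e a - e b) / (e c - e d)) = exp (0 : ℤ) := by
      rw [map_div₀, h1, exp_zero]
      exact div_self ((Valuation.ne_zero_iff _).mpr (sub_ne_zero.mpr (he.ne hcd)))
    rw [fv_of_exp v h3, zpow_zero]
  refine ⟨key _ _ _ _ hij hik, ?_⟩
  rw [one_sub_ratio he hik]
  exact key _ _ _ _ hjk hik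

/-- the primes at which a cross ratio reduces to `0`, `1` or `∞` are primes of bad reduction,
up to the primes over `2` -/
theorem sum_cond_le (hg : 2 ≤ g) (hm : m = 2 * g + 1) {d : K} (hd : d ≠ 0) {e : Fin m → K}
    (he : Function.Injective e) {i j k : Fin m} (hij : i ≠ j) (hik : i ≠ k) (hjk : j ≠ k)
    (B : Finset (FinitePlace K))
    (hB : ∀ v ∈ B, v (ratio e i j k) ≠ 1 ∨ v (1 - ratio e i j k) ≠ 1) :
    ∑ v ∈ B, Real.log ((Ideal.absNorm v.maximalIdeal.asIdeal : ℕ) : ℝ) ≤
      Real.log (badNorm g (pol d e)) + ∑ v ∈ (finite_two K).toFinset, Real.log (Nv v) := by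
  classical
  have h1 : ∑ v ∈ B, Real.log ((Ideal.absNorm v.maximalIdeal.asIdeal : ℕ) : ℝ) =
      ∑ w ∈ B.image FinitePlace.maximalIdeal, Real.log (Nv w) := by
    rw [Finset.sum_image fun a _ b _ h => FinitePlace.maximalIdeal_injective h]
    rfl
  rw [h1, log_badNorm' hm hd he]
  have h2 : B.image FinitePlace.maximalIdeal ⊆
      (finite_bad (pol_isHyp hm hd he)).toFinset ∪ (finite_two K).toFinset := by
    intro w hw
    obtain ⟨v, hv, rfl⟩ := Finset.mem_image.mp hw
    rw [Finset.mem_union, Set.Finite.mem_toFinset, Set.Finite.mem_toFinset]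
    by_contra hcon
    rw [not_or] at hcon
    have h3 : minExp g (pol d e) v.maximalIdeal = 0 := by
      by_contra hne
      exact hcon.1 hne
    have h4 : v.maximalIdeal.valuation K (2 : K) = 1 := by
      by_contra hne
      exact hcon.2 hne
    have h5 := good_ratio hg hm hd he v.maximalIdeal h4 h3 hij hik hjk
    have h6 : ∀ y : K, fv v.maximalIdeal y = v y := fun y => by
      rw [fv_apply, FinitePlace.mk_maximalIdeal]
    rw [h6, h6] at h5
    rcases hB v hv with h | h
    · exact h h5.1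
    · exact h h5.2
  refine (Finset.sum_le_sum_of_subset_of_nonneg h2 fun v _ _ => (log_Nv_pos v).le).trans ?_
  have h3 := Finset.sum_union_inter (s₁ := (finite_bad (pol_isHyp hm hd he)).toFinset)
    (s₂ := (finite_two K).toFinset) (f := fun v => Real.log (Nv v))
  have h4 := Finset.sum_nonneg (s := (finite_bad (pol_isHyp hm hd he)).toFinset ∩
    (finite_two K).toFinset) fun v _ => (log_Nv_pos v).le
  linarith

/-- the upper bound for the minimal discriminant -/
theorem log_disc_le' (K : Type) [Field K] [NumberField K] (hg : 2 ≤ g) (hm : m = 2 * g + 1) :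
    ∃ c₁ : ℝ, ∀ e : Fin m → K, Function.Injective e → ∀ d : K, d ≠ 0 → ∀ H : ℝ,
      (∀ i j k, i ≠ j → i ≠ k → j ≠ k → Height.logHeight₁ (ratio e i j k) ≤ H) →
      Real.log (discNorm g (pol d e)) ≤
        2 * m * Real.log (badNorm g (pol d e)) + 2 * m * (m - 2) * H + c₁ := by
  classical
  choose t ht using fun v : HeightOneSpectrum (𝓞 K) => exists_two_exp v
  set cK : ℝ := (∑ w : InfinitePlace K, (w.mult : ℝ)) * Real.log 2 with hcK
  refine ⟨∑ v ∈ (finite_two K).toFinset, 4 * g * t v * Real.log (Nv v) +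
    2 / (3 * ((m : ℝ) - 1)) * (m * ((m - 1) * ((m - 2) * cK))), ?_⟩
  intro e he d hd H hH
  have hmR : (5 : ℝ) ≤ m := by
    have : 5 ≤ m := by omega
    exact_mod_cast this
  set Bd := (finite_bad (pol_isHyp hm hd he)).toFinset with hBd
  have h1 := log_discNorm' hm hd he
  have h2 := log_badNorm' hm hd he
  rw [← hBd] at h1 h2
  have h3 : ∑ v ∈ Bd, (minExp g (pol d e) v : ℝ) * Real.log (Nv v) ≤
      ∑ v ∈ Bd, ((4 * g * t v + 2 * m) * Real.log (Nv v) +
        2 / (3 * (m - 1)) * ∑ p, ∑ q ∈ univ.erase p, ∑ i ∈ (univ.erase p).erase q,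
          loc (fv v) (ratio e p q i)) :=
    Finset.sum_le_sum fun v _ => minExp_mean (by omega) hm hd he v (ht v)
  have h4 : ∑ v ∈ Bd, ((4 * g * t v + 2 * m) * Real.log (Nv v) +
        2 / (3 * (m - 1)) * ∑ p, ∑ q ∈ univ.erase p, ∑ i ∈ (univ.erase p).erase q,
          loc (fv v) (ratio e p q i)) =
      ∑ v ∈ Bd, 4 * g * t v * Real.log (Nv v) + 2 * m * ∑ v ∈ Bd, Real.log (Nv v) +
        2 / (3 * (m - 1)) * ∑ p, ∑ q ∈ univ.erase p, ∑ i ∈ (univ.erase p).erase q,
          ∑ v ∈ Bd, loc (fv v) (ratio e p q i) := by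
    have e1 : ∑ p, ∑ q ∈ univ.erase p, ∑ i ∈ (univ.erase p).erase q,
        ∑ v ∈ Bd, loc (fv v) (ratio e p q i) = ∑ v ∈ Bd, ∑ p, ∑ q ∈ univ.erase p,
          ∑ i ∈ (univ.erase p).erase q, loc (fv v) (ratio e p q i) := by
      rw [Finset.sum_comm]
      refine Finset.sum_congr rfl fun p _ => ?_
      rw [Finset.sum_comm]
      refine Finset.sum_congr rfl fun q _ => ?_
      rw [Finset.sum_comm]
    rw [e1, Finset.mul_sum, Finset.mul_sum, ← Finset.sum_add_distrib, ← Finset.sum_add_distrib]
    refine Finset.sum_congr rfl fun v _ => ?_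
    ring
  have h5 : ∑ p : Fin m, ∑ q ∈ univ.erase p, ∑ i ∈ (univ.erase p).erase q,
      ∑ v ∈ Bd, loc (fv v) (ratio e p q i) ≤
      ∑ p : Fin m, ∑ q ∈ univ.erase p, ∑ _i ∈ (univ.erase p).erase q, (3 * H + cK) := by
    refine Finset.sum_le_sum fun p _ => Finset.sum_le_sum fun q hq => Finset.sum_le_sum
      fun i hi => ?_
    have hqp : p ≠ q := (Finset.ne_of_mem_erase hq).symm
    have hiq : q ≠ i := (Finset.ne_of_mem_erase hi).symm
    have hip : p ≠ i := (Finset.ne_of_mem_erase (Finset.mem_of_mem_erase hi)).symm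
    have e1 := sum_loc_le (ratio_ne_zero he hqp hip) (ratio_ne_one he hip hiq) Bd
    have e2 := hH p q i hqp hip hiq
    rw [← hcK] at e1
    linarith
  have h5' : ∑ p : Fin m, ∑ q ∈ univ.erase p, ∑ _i ∈ (univ.erase p).erase q, (3 * H + cK) =
      m * ((m - 1) * ((m - 2) * (3 * H + cK))) := by
    have e1 : ∀ p : Fin m, ∀ q ∈ univ.erase p, ∑ _i ∈ (univ.erase p).erase q, (3 * H + cK) =
        (m - 2) * (3 * H + cK) := by
      intro p q hq
      rw [Finset.sum_const, Finset.card_erase_of_mem hq, Finset.card_erase_of_mem (mem_univ _),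
        Finset.card_univ, Fintype.card_fin, nsmul_eq_mul]
      have : m - 1 - 1 = m - 2 := by omega
      rw [this, Nat.cast_sub (by omega)]
      norm_num
    have e2 : ∀ p : Fin m, ∑ q ∈ univ.erase p, ∑ _i ∈ (univ.erase p).erase q, (3 * H + cK) =
        (m - 1) * ((m - 2) * (3 * H + cK)) := by
      intro p
      rw [Finset.sum_congr rfl (e1 p), Finset.sum_const, Finset.card_erase_of_mem (mem_univ _),
        Finset.card_univ, Fintype.card_fin, nsmul_eq_mul, Nat.cast_sub (by omega), Nat.cast_one]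
    rw [Finset.sum_congr rfl fun p _ => e2 p, Finset.sum_const, Finset.card_univ,
      Fintype.card_fin, nsmul_eq_mul]
  have h6 : ∑ v ∈ Bd, 4 * g * t v * Real.log (Nv v) ≤
      ∑ v ∈ (finite_two K).toFinset, 4 * g * t v * Real.log (Nv v) := by
    have e1 : ∑ v ∈ Bd, 4 * g * t v * Real.log (Nv v) =
        ∑ v ∈ Bd.filter (fun v => v ∈ (finite_two K).toFinset), 4 * g * t v * Real.log (Nv v) := by
      rw [Finset.sum_filter]
      refine Finset.sum_congr rfl fun v _ => ?_
      split_ifs with h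
      · rfl
      · have h7 : v.valuation K (2 : K) = 1 := by
          by_contra hne
          exact h ((Set.Finite.mem_toFinset _).mpr hne)
        have h8 := ht v
        rw [h7, ← exp_zero, exp_inj] at h8
        have : t v = 0 := by omega
        rw [this]
        simp
    rw [e1]
    refine Finset.sum_le_sum_of_subset_of_nonneg (fun v hv => (Finset.mem_filter.mp hv).2)
      fun v _ _ => ?_
    have := (log_Nv_pos v).le
    positivity
  rw [h5'] at h5
  have h7 : (0 : ℝ) < 2 / (3 * (m - 1)) := by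
    have : (0 : ℝ) < m - 1 := by linarith
    positivity
  have h8 := mul_le_mul_of_nonneg_left h5 h7.le
  have h9 : 2 / (3 * ((m : ℝ) - 1)) * (m * ((m - 1) * ((m - 2) * (3 * H + cK)))) =
      2 * m * (m - 2) * H + 2 / (3 * ((m : ℝ) - 1)) * (m * ((m - 1) * ((m - 2) * cK))) := by
    have : (m : ℝ) - 1 ≠ 0 := by linarith
    field_simp
  rw [h9] at h8
  rw [h1, h2]
  linarith

end Pool.Agent.K3h2.HA
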