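import Pool.Agent.TH905.HS.Glob

set_option autoImplicit false

/-!
Hyperelliptic curves with rational Weierstrass points: the upper bounds for the minimal discriminant
from the models in which two of the roots are moved to a pair of points with unit difference.
-/

namespace Pool.Agent.K3h2.HA

open Polynomial Finset NumberField IsDedekindDomain WithZero Pool.Agent.W318 Pool.Agent.TH905.HS
  Pool.Agent.H691R3

variable {K : Type} [Field K] [NumberField K]

/-- one of two elements, not both zero, has the larger value for both normalisations of the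
absolute value -/
lemma exists_max (v : HeightOneSpectrum (𝓞 K)) {τ : K} (hτ : τ ≠ 0) (b : K) :
    ∃ μ : K, μ ≠ 0 ∧ max (absW v τ) (absW v b) = absW v μ ∧
      max (fv v τ) (fv v b) = fv v μ := by
  rcases le_total (fv v b) (fv v τ) with h | h
  · exact ⟨τ, hτ, max_eq_left (absW_le_of_fv h), max_eq_left h⟩
  · refine ⟨b, ?_, max_eq_right (absW_le_of_fv h), max_eq_right h⟩
    rintro rfl
    rw [map_zero] at h
    exact absurd ((fv v).pos hτ) (not_lt.mpr h)

/-- an upper bound for the exponent of the minimal discriminant, by the substitution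
`X ↦ τ X + c` -/
theorem minExp_sub {g m : ℕ} (hg : 1 ≤ g) (hm : m = 2 * g + 1) {d : K} (hd : d ≠ 0)
    {e : Fin m → K} (he : Function.Injective e) (v : HeightOneSpectrum (𝓞 K)) {t : ℕ}
    (ht : v.valuation K (2 : K) = exp (-(t : ℤ))) {τ : K} (hτ : τ ≠ 0) (c : K)
    (μ : Fin m → K) (hμ0 : ∀ i, μ i ≠ 0)
    (hμ : ∀ i, max (absW v τ) (absW v (c - e i)) = absW v (μ i)) :
    (minExp g (pol d e) v : ℝ) * Real.log 2 ≤ (4 * g * t + 2 * m) * Real.log 2 +
      2 * m * ∑ i, Real.log (absW v (μ i)) - m * (m + 1) * Real.log (absW v τ) -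
      ∑ i, ∑ j ∈ univ.erase i, Real.log (absW v (e i - e j)) := by
  classical
  have hF := pol_isHyp hm hd he
  have hμp : (∏ i, μ i) ≠ 0 := Finset.prod_ne_zero_iff.mpr fun i _ => hμ0 i
  obtain ⟨k, hk⟩ := exists_exp v (mul_ne_zero hd hμp : d * ∏ i, μ i ≠ 0)
  obtain ⟨ϖ, hϖ⟩ := v.valuation_exists_uniformizer K
  have hϖ0 : ϖ ≠ 0 := by
    rintro rfl
    rw [map_zero] at hϖ
    exact exp_ne_zero hϖ.symm
  set s : K := ϖ ^ ((k + 1) / 2) with hs
  have hs0 : s ≠ 0 := zpow_ne_zero _ hϖ0
  have hvs : v.valuation K s = exp (-((k + 1) / 2)) := by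
    rw [hs, map_zpow₀, hϖ, ← exp_zsmul]
    congr 1
    simp
  have hnn : g + 1 + (g + 1) = m + 1 := by omega
  have hu : s ^ 2 * d ≠ 0 := mul_ne_zero (pow_ne_zero 2 hs0) hd
  -- the new form
  set F' : K[X] := C (s ^ 2) * act (g + 1 + (g + 1)) τ c 0 1 (pol d e) with hF'
  have heqv : Eqv (g + 1) (pol d e) F' := ⟨τ, c, 0, 1, s, by simpa using hτ, hs0, rfl⟩
  set α' : Fin (m + 1) → K := fun i => al K m i * τ + be e i * 0 with hα'
  set β' : Fin (m + 1) → K := fun i => al K m i * c + be e i * 1 with hβ'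
  have hF'' : F' = C (s ^ 2 * d) * ∏ i, (C (α' i) * X + C (β' i)) := by
    rw [hF', hnn, pol_eq, act_prod (m + 1) (Or.inr one_ne_zero), ← mul_assoc, ← C_mul]
  have hna := absW_na v
  have hlogμ : Real.log (absW v (∏ i, μ i)) = ∑ i, Real.log (absW v (μ i)) := by
    rw [map_prod, Real.log_prod fun i _ => ((absW v).pos (hμ0 i)).ne']
  have hlogs : Real.log (absW v (s ^ 2 * d)) + ∑ i, Real.log (absW v (μ i)) =
      (k - 2 * ((k + 1) / 2) : ℤ) * Real.log 2 := by
    have e1 := log_absW v hk
    have e2 := log_absW v hvs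
    rw [map_mul, Real.log_mul ((absW v).pos hd).ne' ((absW v).pos hμp).ne', hlogμ] at e1
    rw [map_mul, map_pow, Real.log_mul (pow_pos ((absW v).pos hs0) _).ne' ((absW v).pos hd).ne',
      Real.log_pow, e2]
    push_cast at e1 e2 ⊢
    linear_combination e1
  have hlog2 : 0 < Real.log 2 := Real.log_pos one_lt_two
  have hε : (k - 2 * ((k + 1) / 2) : ℤ) ≤ 0 ∧ -1 ≤ (k - 2 * ((k + 1) / 2) : ℤ) := by
    constructor <;> omega
  have hint : ∀ i, v.valuation K (F'.coeff i) ≤ 1 := by
    have e1 : F'.gaussNorm (absW v) 1 ≤ 1 := by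
      rw [hF'', gaussNorm_prod_lin hna, Fin.prod_univ_succ]
      have e2 : ∀ i : Fin m, max (absW v (α' i.succ)) (absW v (β' i.succ)) = absW v (μ i) := by
        intro i
        rw [← hμ i]
        simp only [hα', hβ', al, be, Fin.cons_succ, one_mul, mul_zero, add_zero, mul_one,
          sub_eq_add_neg]
      have e3 : max (absW v (α' 0)) (absW v (β' 0)) = 1 := by
        simp [hα', hβ', al, be]
      rw [e3, one_mul, Finset.prod_congr rfl fun i _ => e2 i, ← map_prod]
      have e4 : 0 < absW v (s ^ 2 * d) * absW v (∏ i, μ i) :=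
        mul_pos ((absW v).pos hu) ((absW v).pos hμp)
      rw [← Real.log_nonpos_iff e4.le, Real.log_mul ((absW v).pos hu).ne'
        ((absW v).pos hμp).ne', hlogμ, hlogs]
      have : ((k - 2 * ((k + 1) / 2) : ℤ) : ℝ) ≤ 0 := by exact_mod_cast hε.1
      exact mul_nonpos_of_nonpos_of_nonneg this hlog2.le
    intro i
    exact (absW_le_one_iff v _).mp ((coeff_le_gaussNorm F' i).trans e1)
  obtain ⟨k', hk', _, hle⟩ := minExp_le hF v heqv hint ht
  -- the discriminant of the new form
  have hdet' : ∀ i j, α' i * β' j - α' j * β' i = τ * (al K m i * be e j - al K m j * be e i) := by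
    intro i j
    simp only [hα', hβ']
    ring
  have hne' : ∀ i j, i ≠ j → α' i * β' j - α' j * β' i ≠ 0 := by
    intro i j hij
    rw [hdet']
    exact mul_ne_zero hτ (det_ne he i j hij)
  have hdisc : Real.log (absW v (discN (m + 1) F')) = 2 * m * Real.log (absW v (s ^ 2 * d)) +
      (m + 1) * m * Real.log (absW v τ) +
        ∑ i, ∑ j ∈ univ.erase i, Real.log (absW v (e i - e j)) := by
    have e1 := abs_discN_prod_lin (absW v) hu α' β' hne' (by rw [Fintype.card_fin]; omega)
    rw [Fintype.card_fin, Nat.add_sub_cancel, ← hF''] at e1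
    have hp : ∀ i, ∀ j ∈ univ.erase i, absW v (α' i * β' j - α' j * β' i) ≠ 0 :=
      fun i j hj => ((absW v).pos (hne' i j (Finset.ne_of_mem_erase hj).symm)).ne'
    rw [e1, Real.log_mul (pow_pos ((absW v).pos hu) _).ne'
      (Finset.prod_ne_zero_iff.mpr fun i _ => Finset.prod_ne_zero_iff.mpr (hp i)), Real.log_pow,
      Real.log_prod fun i _ => Finset.prod_ne_zero_iff.mpr (hp i)]
    have e2 : ∀ i : Fin (m + 1), Real.log (∏ j ∈ univ.erase i,
        absW v (α' i * β' j - α' j * β' i)) = m * Real.log (absW v τ) +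
          ∑ j ∈ univ.erase i, Real.log (absW v (al K m i * be e j - al K m j * be e i)) := by
      intro i
      rw [Real.log_prod (hp i)]
      have e3 : ∀ j ∈ univ.erase i, Real.log (absW v (α' i * β' j - α' j * β' i)) =
          Real.log (absW v τ) + Real.log (absW v (al K m i * be e j - al K m j * be e i)) := by
        intro j hj
        rw [hdet', map_mul, Real.log_mul ((absW v).pos hτ).ne'
          ((absW v).pos (det_ne he i j (Finset.ne_of_mem_erase hj).symm)).ne']
      rw [Finset.sum_congr rfl e3, Finset.sum_add_distrib, Finset.sum_const,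
        Finset.card_erase_of_mem (mem_univ _), Finset.card_univ, Fintype.card_fin,
        Nat.add_sub_cancel, nsmul_eq_mul]
    rw [Finset.sum_congr rfl fun i _ => e2 i, Finset.sum_add_distrib, Finset.sum_const,
      Finset.card_univ, Fintype.card_fin, nsmul_eq_mul,
      sum_det e (fun x => Real.log (absW v x)) (by simp) (by simp)]
    push_cast
    ring
  rw [hnn] at hk'
  rw [log_absW v hk'] at hdisc
  have hle' : (minExp g (pol d e) v : ℝ) ≤ 4 * g * t + k' := by exact_mod_cast hle
  have h7 : (k' : ℝ) * Real.log 2 = -(2 * (m * ((k - 2 * ((k + 1) / 2) : ℤ) * Real.log 2))) +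
      (2 * m * ∑ i, Real.log (absW v (μ i)) - m * (m + 1) * Real.log (absW v τ) -
        ∑ i, ∑ j ∈ univ.erase i, Real.log (absW v (e i - e j))) := by
    rw [← hlogs]
    push_cast at hdisc
    linear_combination -hdisc
  have h8 := mul_le_mul_of_nonneg_right hle' hlog2.le
  have h5 : -((k - 2 * ((k + 1) / 2) : ℤ) : ℝ) ≤ 1 := by
    have : (-1 : ℝ) ≤ ((k - 2 * ((k + 1) / 2) : ℤ) : ℝ) := by exact_mod_cast hε.2
    linarith
  have h6 : (m : ℝ) * (-((k - 2 * ((k + 1) / 2) : ℤ) : ℝ) * Real.log 2) ≤ m * Real.log 2 := by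
    refine mul_le_mul_of_nonneg_left ?_ (Nat.cast_nonneg _)
    nlinarith
  linarith

/-- the same bound with the normalised absolute values, two of the roots being moved to points with
unit difference -/
theorem minExp_pair {g m : ℕ} (hg : 1 ≤ g) (hm : m = 2 * g + 1) {d : K} (hd : d ≠ 0)
    {e : Fin m → K} (he : Function.Injective e) (v : HeightOneSpectrum (𝓞 K)) {t : ℕ}
    (ht : v.valuation K (2 : K) = exp (-(t : ℤ))) {p q : Fin m} (hpq : p ≠ q) :
    (minExp g (pol d e) v : ℝ) * Real.log (Nv v) ≤ (4 * g * t + 2 * m) * Real.log (Nv v) +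
      2 * m * ∑ i, Real.log (max (fv v (e p - e q)) (fv v (e p - e i))) -
      m * (m + 1) * Real.log (fv v (e p - e q)) -
      ∑ i, ∑ j ∈ univ.erase i, Real.log (fv v (e i - e j)) := by
  classical
  have hτ : e p - e q ≠ 0 := sub_ne_zero.mpr (he.ne hpq)
  choose μ hμ0 hμ1 hμ2 using fun i => exists_max v hτ (e p - e i)
  have h := minExp_sub hg hm hd he v ht hτ (e p) μ hμ0 hμ1
  have hlog2 : 0 < Real.log 2 := Real.log_pos one_lt_two
  have hN := log_Nv_pos v
  have h2 := mul_le_mul_of_nonneg_right h hN.le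
  refine le_of_mul_le_mul_right ?_ hlog2
  have e1 : (∑ i, Real.log (max (fv v (e p - e q)) (fv v (e p - e i)))) * Real.log 2 =
      (∑ i, Real.log (absW v (μ i))) * Real.log (Nv v) := by
    rw [Finset.sum_mul, Finset.sum_mul]
    refine Finset.sum_congr rfl fun i _ => ?_
    rw [hμ2, log_fv_absW v (hμ0 i)]
  have e2 := log_fv_absW v hτ
  have e3 : (∑ i, ∑ j ∈ univ.erase i, Real.log (fv v (e i - e j))) * Real.log 2 =
      (∑ i, ∑ j ∈ univ.erase i, Real.log (absW v (e i - e j))) * Real.log (Nv v) := by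
    rw [Finset.sum_mul, Finset.sum_mul]
    refine Finset.sum_congr rfl fun i _ => ?_
    rw [Finset.sum_mul, Finset.sum_mul]
    refine Finset.sum_congr rfl fun j hj => ?_
    exact log_fv_absW v (sub_ne_zero.mpr (he.ne (Finset.ne_of_mem_erase hj).symm))
  have e4 : ((4 * g * t + 2 * m) * Real.log (Nv v) +
      2 * m * ∑ i, Real.log (max (fv v (e p - e q)) (fv v (e p - e i))) -
      m * (m + 1) * Real.log (fv v (e p - e q)) -
      ∑ i, ∑ j ∈ univ.erase i, Real.log (fv v (e i - e j))) * Real.log 2 =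
      (((4 * g * t + 2 * m) * Real.log 2 +
      2 * m * ∑ i, Real.log (absW v (μ i)) - m * (m + 1) * Real.log (absW v (e p - e q)) -
      ∑ i, ∑ j ∈ univ.erase i, Real.log (absW v (e i - e j))) * Real.log (Nv v)) := by
    linear_combination 2 * (m : ℝ) * e1 - m * (m + 1) * e2 - e3
  rw [e4]
  linarith

end Pool.Agent.K3h2.HA
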